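/-
MP_9f7f62_lc : the forall-exists theory (signature join, meet) of the lattice of Medvedev degrees of
nonempty effectively closed subsets of Cantor space is undecidable.
-/
import Pool.Agent.Lib.MP_9f7f62_lc.Final

namespace Pool.Agent.Results.MP_9f7f62_lc.Undecidable

open Pool.Agent.Lib.MUD

/-- There is no algorithm which decides, given (the Gödel number of) a quantifier-free formula `φ` in
the signature `{∨, ∧}` of lattices in universally quantified variables `x i` and existentially
quantified variables `y i`, whether the forall-exists sentence with matrix `φ` holds in the lattice
`MedDeg` of Medvedev degrees of nonempty `Π⁰₁` subsets of Cantor space. -/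
theorem result : ¬ ∃ D : ℕ → Bool, Computable D ∧
    ∀ φ : Fm, D φ.code = true ↔ Holds MedDeg φ :=
  main

end Pool.Agent.Results.MP_9f7f62_lc.Undecidable
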